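import Pool.Agent.V11245.Filt.Defs

/-!
A free filter on the naturals that is neither poor nor conglomerated, in ZFC.
-/

namespace Pool.Agent.V11245.Filt

open Set Filter

noncomputable section

lemma uncountable_cantor : Uncountable (ℕ → Bool) := by
  rw [← Cardinal.aleph0_lt_mk_iff]
  simp only [Cardinal.mk_pi, Cardinal.mk_fintype, Fintype.card_bool, Nat.cast_ofNat,
    Cardinal.prod_const, Cardinal.lift_id, Cardinal.mk_nat]
  simpa using Cardinal.cantor Cardinal.aleph0

lemma exists_free_ultra {A : Set ℕ} (hA : A.Infinite) :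
    ∃ U : Ultrafilter ℕ, (U : Filter ℕ) ≤ cofinite ∧ A ∈ U := by
  have : NeBot (cofinite ⊓ 𝓟 A) := by
    rw [← Filter.frequently_mem_iff_neBot]
    exact Filter.frequently_cofinite_iff_infinite.2 hA
  refine ⟨Ultrafilter.of (cofinite ⊓ 𝓟 A), (Ultrafilter.of_le _).trans inf_le_left, ?_⟩
  exact (Ultrafilter.of_le (cofinite ⊓ 𝓟 A)) (mem_inf_of_right (mem_principal_self A))

lemma not_mem_of_finite {U : Ultrafilter ℕ} (hU : (U : Filter ℕ) ≤ cofinite) {A : Set ℕ}
    (hA : A.Finite) : A ∉ U := by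
  have : Aᶜ ∈ (U : Filter ℕ) := hU hA.compl_mem_cofinite
  exact Ultrafilter.compl_mem_iff_notMem.1 this

/-- few ultrafilters can be avoided by the union over an infinite set of indices -/
lemma avoid {ι : Type*} (h : ∀ g : (ℕ → Bool) → ι, ¬ Function.Injective g)
    (V : ι → Ultrafilter ℕ) (D : ℕ → Set ℕ) (hd : ∀ m n, m ≠ n → Disjoint (D m) (D n))
    (hD : ∀ i n, D n ∉ V i) : ∃ x : ℕ → Bool, ∀ i, (⋃ n ∈ AD x, D n) ∉ V i := by
  by_contra hc
  push Not at hc
  choose g hg using hc
  apply h g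
  intro x y hxy
  by_contra hne
  have h1 : (⋃ n ∈ AD x, D n) ∩ (⋃ n ∈ AD y, D n) ∈ V (g x) := by
    apply inter_mem (hg x)
    rw [hxy]; exact hg y
  rw [biUnion_inter hd] at h1
  have h2 := (Ultrafilter.finite_biUnion_mem_iff (AD_inter hne)).1 h1
  obtain ⟨n, _, hn⟩ := h2
  exact hD _ n hn

lemma ideal_iSup {ι : Type*} (V : ι → Ultrafilter ℕ) (X : Set ℕ) :
    InIdeal (⨆ i, (V i : Filter ℕ)) X ↔ ∀ i, X ∉ V i := by
  unfold InIdeal
  rw [Filter.mem_iSup]
  exact forall_congr' fun i => Ultrafilter.compl_mem_iff_notMem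

lemma free_iSup {ι : Type*} [Nonempty ι] (V : ι → Ultrafilter ℕ)
    (hV : ∀ i, (V i : Filter ℕ) ≤ cofinite) : IsFree (⨆ i, (V i : Filter ℕ)) := by
  refine ⟨?_, iSup_le hV⟩
  obtain ⟨i⟩ := ‹Nonempty ι›
  exact NeBot.mono (V i).neBot (le_iSup (fun i => (V i : Filter ℕ)) i)

/-- the case where the continuum hypothesis fails -/
lemma case_notCH (h : Cardinal.aleph.{0} 1 < Cardinal.continuum) :
    ∃ F : Filter ℕ, IsFree F ∧ ¬ IsPoor F ∧ ¬ IsConglomerated F := by
  have hc : Cardinal.mk (ℕ → Bool) = Cardinal.continuum.{0} := by simp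
  obtain ⟨S, hS⟩ := Cardinal.le_mk_iff_exists_set.1 (h.le.trans hc.ge)
  choose V hV hVA using fun x : S => exists_free_ultra (AD_infinite x.1)
  have hunc : Uncountable S := by
    rw [← Cardinal.aleph0_lt_mk_iff, hS]
    exact Cardinal.aleph0_lt_aleph_one
  have hne : Nonempty S := by
    by_contra hne
    rw [not_nonempty_iff] at hne
    exact not_countable (α := S) inferInstance
  refine ⟨⨆ i, (V i : Filter ℕ), free_iSup V hV, ?_, ?_⟩
  · intro hp
    have h1 := hp (Set.range fun x : S => AD x.1) (by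
      rintro _ ⟨x, rfl⟩
      rw [ideal_iSup]
      push Not
      exact ⟨x, hVA x⟩) (by
      rintro _ ⟨x, rfl⟩ _ ⟨y, rfl⟩ hne
      rw [ideal_iSup]
      intro i
      apply not_mem_of_finite (hV i)
      apply AD_inter
      rintro he
      apply hne
      simp only [he])
    have hinj : Function.Injective fun x : S => AD x.1 := by
      intro x y hxy
      by_contra hne
      apply AD_infinite x.1
      have h2 := AD_inter (x := x.1) (y := y.1) (fun h => hne (Subtype.ext h))
      simp only at hxy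
      rwa [← hxy, Set.inter_self] at h2
    have h2 : Countable (Set.range fun x : S => AD x.1) := h1.to_subtype
    exact not_countable (α := S) ((Equiv.ofInjective _ hinj).countable_iff.2 h2)
  · rintro ⟨D, hD, hd, hM⟩
    obtain ⟨x, hx⟩ := avoid (ι := S) (by
      intro g hg
      have := Cardinal.mk_le_of_injective hg
      rw [hc, hS] at this
      exact not_le_of_gt h this) V D hd (fun i n => (ideal_iSup V (D n)).1 (hD n) i)
    apply hM _ (AD_infinite x)
    rw [ideal_iSup]
    exact hx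

/-- recursion with choices -/
lemma rec_choice {Ω S : Type} [Nonempty S] {r : Ω → Ω → Prop} (hwf : WellFounded r)
    (ht : ∀ a b c, r a b → r b c → r a c)
    (Req : (β : Ω) → (∀ α, r α β → S) → S → Prop)
    (hex : ∀ β (prev : ∀ α, r α β → S),
      (∀ α (h : r α β), Req α (fun γ hγ => prev γ (ht _ _ _ hγ h)) (prev α h)) →
        ∃ s, Req β prev s) :
    ∃ f : Ω → S, ∀ β, Req β (fun α _ => f α) (f β) := by
  classical
  let step : (β : Ω) → (∀ α, r α β → S) → S := fun β prev =>
    if h : ∃ s, Req β prev s then h.choose else Classical.arbitrary S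
  let f : Ω → S := hwf.fix step
  have hf : ∀ β, f β = step β (fun α _ => f α) := fun β => hwf.fix_eq step β
  refine ⟨f, fun β => ?_⟩
  induction β using hwf.induction with
  | _ β ih =>
    have h : ∃ s, Req β (fun α _ => f α) s := hex β _ fun α hα => ih α hα
    rw [hf β]
    simp only [step]
    rw [dif_pos h]
    exact h.choose_spec

/-- pseudo-complements of countably many small sets -/
lemma exists_ad_nat {W : Ultrafilter ℕ} (hW : (W : Filter ℕ) ≤ cofinite) (K : ℕ → Set ℕ)
    (hK : ∀ i, K i ∉ W) : ∃ A : Set ℕ, A.Infinite ∧ A ∉ W ∧ ∀ i, (A ∩ K i).Finite := by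
  obtain ⟨φ, hφ, hP⟩ := Filter.extraction_forall_of_frequently
    (P := fun n k => ∀ i ≤ n, k ∉ K i) (by
      intro n
      rw [Nat.frequently_atTop_iff_infinite]
      intro hfin
      have h1 : {k | ∀ i ≤ n, k ∉ K i} ∈ W := by
        have h2 : ∀ i, (K i)ᶜ ∈ W := fun i => Ultrafilter.compl_mem_iff_notMem.2 (hK i)
        have h3 : (⋂ i ∈ Finset.range (n+1), (K i)ᶜ) ∈ (W : Filter ℕ) :=
          (Filter.biInter_finset_mem _).2 fun i _ => h2 i
        apply mem_of_superset h3
        intro k hk i hi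
        simp only [Set.mem_iInter] at hk
        exact hk i (Finset.mem_range.2 (Nat.lt_succ_of_le hi))
      exact not_mem_of_finite hW hfin h1)
  have hfin : ∀ i, (Set.range φ ∩ K i).Finite := by
    intro i
    apply ((Set.finite_lt_nat i).image φ).subset
    rintro _ ⟨⟨n, rfl⟩, hn⟩
    refine ⟨n, ?_, rfl⟩
    by_contra hc
    have hc' : i ≤ n := not_lt.1 hc
    exact hP n i hc' hn
  let A0 : Set ℕ := Set.range fun n => φ (2 * n)
  let A1 : Set ℕ := Set.range fun n => φ (2 * n + 1)
  have hd : Disjoint A0 A1 := by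
    rw [Set.disjoint_left]
    rintro _ ⟨a, rfl⟩ ⟨b, hb⟩
    have := hφ.injective hb
    omega
  have h0 : A0.Infinite := Set.infinite_range_of_injective (by
    intro a b hab
    have := hφ.injective hab
    omega)
  have h1 : A1.Infinite := Set.infinite_range_of_injective (by
    intro a b hab
    have := hφ.injective hab
    omega)
  by_cases hA : A0 ∈ W
  · refine ⟨A1, h1, ?_, ?_⟩
    · intro hA1
      have := W.neBot.nonempty_of_mem (inter_mem hA hA1)
      rw [hd.inter_eq] at this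
      exact Set.not_nonempty_empty this
    · intro i
      apply (hfin i).subset
      apply Set.inter_subset_inter_left
      rintro _ ⟨a, rfl⟩
      exact ⟨_, rfl⟩
  · refine ⟨A0, h0, hA, ?_⟩
    intro i
    apply (hfin i).subset
    apply Set.inter_subset_inter_left
    rintro _ ⟨a, rfl⟩
    exact ⟨_, rfl⟩

lemma exists_ad {ι : Type*} [Countable ι] {W : Ultrafilter ℕ} (hW : (W : Filter ℕ) ≤ cofinite)
    (K : ι → Set ℕ) (hK : ∀ i, K i ∉ W) :
    ∃ A : Set ℕ, A.Infinite ∧ A ∉ W ∧ ∀ i, (A ∩ K i).Finite := by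
  rcases isEmpty_or_nonempty ι with h | h
  · obtain ⟨A, h1, h2, _⟩ := exists_ad_nat hW (fun _ => ∅) (fun _ => W.empty_notMem)
    exact ⟨A, h1, h2, fun i => isEmptyElim i⟩
  · obtain ⟨f, hf⟩ := exists_surjective_nat ι
    obtain ⟨A, h1, h2, h3⟩ := exists_ad_nat hW (fun n => K (f n)) (fun n => hK _)
    refine ⟨A, h1, h2, fun i => ?_⟩
    obtain ⟨n, rfl⟩ := hf i
    exact h3 n

/-- data chosen at each stage -/
structure St where
  U : Ultrafilter ℕ
  A : Set ℕ
  E : Set ℕ

/-- the requirement at stage `β`, a sequence of sets -/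
def Req (r : (ℕ → Set ℕ) → (ℕ → Set ℕ) → Prop) (W : Ultrafilter ℕ) (β : ℕ → Set ℕ)
    (prev : ∀ α, r α β → St) (s : St) : Prop :=
  (s.U : Filter ℕ) ≤ cofinite ∧ s.A ∈ s.U ∧ s.A ∉ W ∧ s.E ∉ W ∧ s.E ∉ s.U ∧
    (∀ α (h : r α β), (s.A ∩ (prev α h).A).Finite ∧ (s.A ∩ (prev α h).E).Finite ∧
      s.E ∉ (prev α h).U) ∧
    (((∀ m n, m ≠ n → Disjoint (β m) (β n)) ∧ ∀ n, β n ∉ W ∧ β n ∉ s.U ∧
      ∀ α (h : r α β), β n ∉ (prev α h).U) → ∃ M : Set ℕ, M.Infinite ∧ s.E = ⋃ n ∈ M, β n)

lemma Req_exists (r : (ℕ → Set ℕ) → (ℕ → Set ℕ) → Prop) (W : Ultrafilter ℕ)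
    (hW : (W : Filter ℕ) ≤ cofinite) (ht : ∀ a b c, r a b → r b c → r a c)
    (hcount : ∀ β, Countable {α // r α β}) (β : ℕ → Set ℕ) (prev : ∀ α, r α β → St)
    (hprev : ∀ α (h : r α β), Req r W α (fun γ hγ => prev γ (ht _ _ _ hγ h)) (prev α h)) :
    ∃ s, Req r W β prev s := by
  classical
  have := hcount β
  let C := {α // r α β}
  obtain ⟨A, hA, hAW, hfin⟩ := exists_ad (ι := C ⊕ C) hW
    (Sum.elim (fun α => (prev α.1 α.2).A) (fun α => (prev α.1 α.2).E)) (by
      rintro (α | α)
      · exact (hprev α.1 α.2).2.2.1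
      · exact (hprev α.1 α.2).2.2.2.1)
  obtain ⟨U, hU, hAU⟩ := exists_free_ultra hA
  by_cases H : (∀ m n, m ≠ n → Disjoint (β m) (β n)) ∧ ∀ n, β n ∉ W ∧ β n ∉ U ∧
      ∀ α (h : r α β), β n ∉ (prev α h).U
  · obtain ⟨x, hx⟩ := avoid (ι := Option (Option C)) (by
        intro g hg
        have := hg.countable
        have := uncountable_cantor
        exact not_countable (α := ℕ → Bool) inferInstance)
      (fun o => match o with
        | none => W
        | some none => U
        | some (some α) => (prev α.1 α.2).U) β H.1 (by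
        rintro (_ | _ | α) n
        · exact (H.2 n).1
        · exact (H.2 n).2.1
        · exact (H.2 n).2.2 α.1 α.2)
    refine ⟨⟨U, A, ⋃ n ∈ AD x, β n⟩, hU, hAU, hAW, hx none, hx (some none), ?_, ?_⟩
    · intro α h
      exact ⟨hfin (Sum.inl ⟨α, h⟩), hfin (Sum.inr ⟨α, h⟩), hx (some (some ⟨α, h⟩))⟩
    · intro _
      exact ⟨AD x, AD_infinite x, rfl⟩
  · refine ⟨⟨U, A, ∅⟩, hU, hAU, hAW, W.empty_notMem, U.empty_notMem, ?_, ?_⟩
    · intro α h
      exact ⟨hfin (Sum.inl ⟨α, h⟩), hfin (Sum.inr ⟨α, h⟩), (prev α h).U.empty_notMem⟩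
    · intro h; exact absurd h H

/-- the case where the continuum hypothesis holds -/
lemma case_CH (h : Cardinal.aleph.{0} 1 = Cardinal.continuum) :
    ∃ F : Filter ℕ, IsFree F ∧ ¬ IsPoor F ∧ ¬ IsConglomerated F := by
  classical
  have hc : Cardinal.mk (ℕ → Set ℕ) = Cardinal.aleph.{0} 1 := by
    rw [h]
    simp [Set]
  obtain ⟨r, wo, hr⟩ := Cardinal.exists_ord_eq (ℕ → Set ℕ)
  have hcount : ∀ β, Countable {α // r α β} := by
    intro β
    have h1 := Cardinal.card_typein_lt (r := r) β hr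
    rw [hc] at h1
    rw [← Cardinal.mk_le_aleph0_iff]
    have h2 : Cardinal.mk {α // r α β} = (Ordinal.typein r β).card := by
      rw [Ordinal.card_typein]
    rw [h2]
    rw [← Cardinal.succ_aleph0] at h1
    exact Order.lt_succ_iff.1 h1
  have ht : ∀ a b c, r a b → r b c → r a c := fun a b c => _root_.trans
  obtain ⟨W, hW, _⟩ := exists_free_ultra (A := Set.univ) Set.infinite_univ
  have : Nonempty St := ⟨⟨W, ∅, ∅⟩⟩
  obtain ⟨f, hf⟩ := rec_choice (S := St) wo.wf ht (Req r W)
    (fun β prev hp => Req_exists r W hW ht hcount β prev hp)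
  let V : Option (ℕ → Set ℕ) → Ultrafilter ℕ := fun o => match o with
    | none => W
    | some β => (f β).U
  have hV : ∀ i, (V i : Filter ℕ) ≤ cofinite := by
    rintro (_ | β)
    · exact hW
    · exact (hf β).1
  have had : ∀ α β, α ≠ β → ((f α).A ∩ (f β).A).Finite := by
    intro α β hne
    rcases trichotomous_of r α β with h1 | h1 | h1
    · rw [Set.inter_comm]
      exact ((hf β).2.2.2.2.2.1 α h1).1
    · exact absurd h1 hne
    · exact ((hf α).2.2.2.2.2.1 β h1).1
  refine ⟨⨆ i, (V i : Filter ℕ), free_iSup V hV, ?_, ?_⟩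
  · intro hp
    have h1 := hp (Set.range fun β => (f β).A) (by
      rintro _ ⟨β, rfl⟩
      rw [ideal_iSup]
      push Not
      exact ⟨some β, (hf β).2.1⟩) (by
      rintro _ ⟨α, rfl⟩ _ ⟨β, rfl⟩ hne
      rw [ideal_iSup]
      intro i
      apply not_mem_of_finite (hV i)
      apply had
      rintro rfl
      exact hne rfl)
    have hinj : Function.Injective fun β => (f β).A := by
      intro α β hab
      by_contra hne
      have h2 := had α β hne
      simp only at hab
      rw [← hab, Set.inter_self] at h2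
      exact not_mem_of_finite (hf α).1 h2 (hf α).2.1
    have h2 : Countable (Set.range fun β => (f β).A) := h1.to_subtype
    have h3 : Countable (ℕ → Set ℕ) := (Equiv.ofInjective _ hinj).countable_iff.2 h2
    rw [← Cardinal.mk_le_aleph0_iff, hc] at h3
    exact not_le_of_gt Cardinal.aleph0_lt_aleph_one h3
  · rintro ⟨β, hD, hd, hM⟩
    have hD' : ∀ n i, β n ∉ V i := fun n i => (ideal_iSup V (β n)).1 (hD n) i
    obtain ⟨g1, g2, g3, g4, g5, g6, g7⟩ := hf β
    obtain ⟨M, hMinf, hME⟩ := g7 ⟨hd, fun n => ⟨hD' n none, hD' n (some β),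
      fun α _ => hD' n (some α)⟩⟩
    apply hM M hMinf
    rw [← hME, ideal_iSup]
    rintro (_ | γ)
    · exact g4
    · rcases trichotomous_of r γ β with h1 | h1 | h1
      · exact (g6 γ h1).2.2
      · subst h1; exact g5
      · intro hE
        have h2 := ((hf γ).2.2.2.2.2.1 β h1).2.1
        exact not_mem_of_finite (hf γ).1 h2 (inter_mem (hf γ).2.1 hE)

/-- In ZFC there is a free filter that is neither poor nor conglomerated. -/
theorem exists_not_poor_not_conglomerated :
    ∃ F : Filter ℕ, IsFree F ∧ ¬ IsPoor F ∧ ¬ IsConglomerated F := by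
  rcases lt_or_eq_of_le Cardinal.aleph_one_le_continuum.{0} with h | h
  · exact case_notCH h
  · exact case_CH h

end

end Pool.Agent.V11245.Filt
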