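import Mathlib

/-!
Filters on the natural numbers: free, poor, conglomerated filters, and statistical measures.
-/

namespace Pool.Agent.V11245.Filt

open Set Filter

/-- A (proper) filter is free if it contains every cofinite set. -/
def IsFree (F : Filter ℕ) : Prop := F.NeBot ∧ F ≤ cofinite

/-- `A` lies in the ideal of `F` iff its complement is in `F`. -/
def InIdeal (F : Filter ℕ) (A : Set ℕ) : Prop := Aᶜ ∈ F

/-- `F` is poor: every family of sets outside the ideal, with pairwise intersections in the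
ideal, is at most countable. -/
def IsPoor (F : Filter ℕ) : Prop :=
  ∀ 𝒜 : Set (Set ℕ), (∀ A ∈ 𝒜, ¬ InIdeal F A) →
    (∀ A ∈ 𝒜, ∀ B ∈ 𝒜, A ≠ B → InIdeal F (A ∩ B)) → 𝒜.Countable

/-- `F` is conglomerated: there are pairwise disjoint sets `D n` in the ideal such that the
union over every infinite set of indices is outside the ideal. -/
def IsConglomerated (F : Filter ℕ) : Prop :=
  ∃ D : ℕ → Set ℕ, (∀ n, InIdeal F (D n)) ∧ (∀ m n, m ≠ n → Disjoint (D m) (D n)) ∧
    ∀ M : Set ℕ, M.Infinite → ¬ InIdeal F (⋃ n ∈ M, D n)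

/-- A statistical measure: finitely additive, nonnegative, total mass one, points are null. -/
structure IsStatMeasure (μ : Set ℕ → ℝ) : Prop where
  nonneg : ∀ A, 0 ≤ μ A
  univ : μ Set.univ = 1
  point : ∀ k, μ {k} = 0
  add : ∀ A B, Disjoint A B → μ (A ∪ B) = μ A + μ B

/-- `F` is the filter generated by `μ`. -/
def GeneratedBy (F : Filter ℕ) (μ : Set ℕ → ℝ) : Prop := ∀ A, A ∈ F ↔ μ A = 1

/-! ### An almost disjoint family -/

/-- the first `n` values of `x` -/
def tr (x : ℕ → Bool) (n : ℕ) : List Bool := (List.range n).map x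

lemma tr_eq_iff {x y : ℕ → Bool} {n : ℕ} : tr x n = tr y n ↔ ∀ i < n, x i = y i := by
  unfold tr
  rw [List.map_inj_left]
  simp

lemma tr_length (x : ℕ → Bool) (n : ℕ) : (tr x n).length = n := by simp [tr]

lemma tr_mono {x y : ℕ → Bool} {m n : ℕ} (h : m ≤ n) (he : tr x n = tr y n) : tr x m = tr y m := by
  rw [tr_eq_iff] at *
  intro i hi; exact he i (lt_of_lt_of_le hi h)

lemma exists_sep {x y : ℕ → Bool} (h : x ≠ y) : ∃ n, tr x n ≠ tr y n := by
  by_contra hc
  push Not at hc
  apply h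
  funext i
  exact tr_eq_iff.1 (hc (i+1)) i (Nat.lt_succ_self i)

/-- an almost disjoint family indexed by the Cantor space -/
def AD (x : ℕ → Bool) : Set ℕ := Set.range fun n => Encodable.encode (tr x n)

lemma AD_injective (x : ℕ → Bool) : Function.Injective fun n => Encodable.encode (tr x n) := by
  intro a b h
  have := Encodable.encode_injective h
  have h2 := congrArg List.length this
  simpa [tr_length] using h2

lemma AD_infinite (x : ℕ → Bool) : (AD x).Infinite :=
  Set.infinite_range_of_injective (AD_injective x)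

lemma AD_inter {x y : ℕ → Bool} (h : x ≠ y) : (AD x ∩ AD y).Finite := by
  obtain ⟨n, hn⟩ := exists_sep h
  apply ((Set.finite_lt_nat n).image fun k => Encodable.encode (tr x k)).subset
  rintro m ⟨⟨a, rfl⟩, ⟨b, hb⟩⟩
  have h1 := Encodable.encode_injective hb
  have h2 : b = a := by simpa [tr_length] using congrArg List.length h1
  subst h2
  refine ⟨b, ?_, rfl⟩
  by_contra hc
  simp only [Set.mem_ofPred_eq, not_lt] at hc
  exact hn (tr_mono hc h1.symm)

/-! ### Basic facts on ideals -/

lemma InIdeal.mono {F : Filter ℕ} {A B : Set ℕ} (h : InIdeal F B) (hs : A ⊆ B) : InIdeal F A :=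
  mem_of_superset h (Set.compl_subset_compl.2 hs)

lemma InIdeal.union {F : Filter ℕ} {A B : Set ℕ} (hA : InIdeal F A) (hB : InIdeal F B) :
    InIdeal F (A ∪ B) := by
  unfold InIdeal at *
  rw [Set.compl_union]
  exact inter_mem hA hB

lemma InIdeal.biUnion {F : Filter ℕ} {ι : Type*} {s : Set ι} (hs : s.Finite) {D : ι → Set ℕ}
    (h : ∀ i ∈ s, InIdeal F (D i)) : InIdeal F (⋃ i ∈ s, D i) := by
  unfold InIdeal at *
  rw [Set.compl_iUnion₂]
  exact (biInter_mem hs).2 h

lemma biUnion_inter {D : ℕ → Set ℕ} (hd : ∀ m n, m ≠ n → Disjoint (D m) (D n)) (M N : Set ℕ) :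
    (⋃ n ∈ M, D n) ∩ (⋃ n ∈ N, D n) = ⋃ n ∈ M ∩ N, D n := by
  ext k
  simp only [Set.mem_inter_iff, Set.mem_iUnion, exists_prop]
  constructor
  · rintro ⟨⟨a, ha, hka⟩, ⟨b, hb, hkb⟩⟩
    by_cases hab : a = b
    · subst hab; exact ⟨a, ⟨ha, hb⟩, hka⟩
    · exact absurd hkb (Set.disjoint_left.1 (hd a b hab) hka)
  · rintro ⟨a, ⟨ha, hb⟩, hka⟩
    exact ⟨⟨a, ha, hka⟩, ⟨a, hb, hka⟩⟩

/-- a conglomerated filter is not poor -/
theorem IsConglomerated.not_poor {F : Filter ℕ} (h : IsConglomerated F) : ¬ IsPoor F := by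
  rintro hp
  obtain ⟨D, hD, hd, hM⟩ := h
  have hinj : Function.Injective fun x : ℕ → Bool => ⋃ n ∈ AD x, D n := by
    intro x y hxy
    by_contra hne
    apply hM (AD x) (AD_infinite x)
    have h1 : (⋃ n ∈ AD x, D n) = ⋃ n ∈ AD x ∩ AD y, D n := by
      rw [← biUnion_inter hd]
      simp only at hxy
      rw [← hxy, Set.inter_self]
    rw [h1]
    exact InIdeal.biUnion (AD_inter hne) fun i _ => hD i
  have hc := hp (Set.range fun x : ℕ → Bool => ⋃ n ∈ AD x, D n) (by
    rintro _ ⟨x, rfl⟩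
    exact hM _ (AD_infinite x)) (by
    rintro _ ⟨x, rfl⟩ _ ⟨y, rfl⟩ hne
    simp only
    rw [biUnion_inter hd]
    apply InIdeal.biUnion (AD_inter _) fun i _ => hD i
    rintro rfl; exact hne rfl)
  have : Countable (ℕ → Bool) := by
    have h2 : Countable (Set.range fun x : ℕ → Bool => ⋃ n ∈ AD x, D n) := hc.to_subtype
    exact (Equiv.ofInjective _ hinj).countable_iff.2 h2
  have hunc : Uncountable (ℕ → Bool) := by
    rw [← Cardinal.aleph0_lt_mk_iff]
    simp only [Cardinal.mk_pi, Cardinal.mk_fintype, Fintype.card_bool, Nat.cast_ofNat,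
      Cardinal.prod_const, Cardinal.lift_id, Cardinal.mk_nat]
    simpa using Cardinal.cantor Cardinal.aleph0
  exact not_countable this

end Pool.Agent.V11245.Filt
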