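import Pool.Agent.V11245.Filt.Defs

/-!
A poor free filter on the naturals which is not generated by a statistical measure
(a Gaifman type construction).
-/

namespace Pool.Agent.V11245.Filt

open Set Filter

noncomputable section

open Classical in
/-- legal finite sets of points of the Cantor space -/
def Legal (p : Finset (ℕ → Bool)) : Prop :=
  ∀ n : ℕ, ∀ s : List Bool,
    ((p.filter (fun x => tr x n = s)).image (fun x => tr x (2 * n))).card ≤ n + 1

lemma Legal.mono {p q : Finset (ℕ → Bool)} (h : Legal p) (hs : q ⊆ p) : Legal q := by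
  classical
  intro n s
  refine le_trans (Finset.card_le_card ?_) (h n s)
  exact Finset.image_subset_image (Finset.filter_subset_filter _ hs)

lemma legal_singleton (x : ℕ → Bool) : Legal {x} := by
  classical
  intro n s
  refine le_trans Finset.card_image_le (le_trans (Finset.card_filter_le _ _) ?_)
  simp

/-- an independent family -/
def Ax (x : ℕ → Bool) : Set ℕ :=
  {m | ∃ n : ℕ, ∃ S : Finset (List Bool), m = Encodable.encode (n, S) ∧ tr x n ∈ S}

/-- the basic sets -/
def E (p q : Finset (ℕ → Bool)) : Set ℕ := {m | (∀ x ∈ p, m ∈ Ax x) ∧ ∀ x ∈ q, m ∉ Ax x}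

lemma E_mono {p q p' q' : Finset (ℕ → Bool)} (hp : p ⊆ p') (hq : q ⊆ q') : E p' q' ⊆ E p q :=
  fun _ hm => ⟨fun x hx => hm.1 x (hp hx), fun x hx => hm.2 x (hq hx)⟩

lemma mem_Ax_encode {x : ℕ → Bool} {n : ℕ} {S : Finset (List Bool)} :
    Encodable.encode (n, S) ∈ Ax x ↔ tr x n ∈ S := by
  constructor
  · rintro ⟨n', S', h, hx⟩
    have := Encodable.encode_injective h
    simp only [Prod.mk.injEq] at this
    obtain ⟨rfl, rfl⟩ := this
    exact hx
  · intro h; exact ⟨n, S, rfl, h⟩

lemma exists_sep_finset {p q : Finset (ℕ → Bool)} (h : Disjoint p q) :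
    ∃ L, ∀ x ∈ p, ∀ y ∈ q, ∀ n, L ≤ n → tr x n ≠ tr y n := by
  classical
  have hx : ∀ z : (ℕ → Bool) × (ℕ → Bool), ∃ L, z.1 ≠ z.2 → ∀ n, L ≤ n → tr z.1 n ≠ tr z.2 n := by
    intro z
    by_cases hz : z.1 = z.2
    · exact ⟨0, fun h => absurd hz h⟩
    · obtain ⟨L, hL⟩ := exists_sep hz
      exact ⟨L, fun _ n hn he => hL (tr_mono hn he)⟩
  choose f hf using hx
  refine ⟨(p ×ˢ q).sup f, ?_⟩
  intro x hx y hy n hn
  have hne : x ≠ y := by
    rintro rfl; exact Finset.disjoint_left.1 h hx hy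
  refine hf (x, y) hne n (le_trans ?_ hn)
  exact Finset.le_sup (f := f) (Finset.mk_mem_product hx hy)

lemma E_infinite {p q : Finset (ℕ → Bool)} (h : Disjoint p q) : (E p q).Infinite := by
  classical
  obtain ⟨L, hL⟩ := exists_sep_finset h
  refine Set.infinite_of_injective_forall_mem
    (f := fun k : ℕ => Encodable.encode (L + k, p.image (fun x => tr x (L + k)))) ?_ ?_
  · intro a b hab
    have := Encodable.encode_injective hab
    simp only [Prod.mk.injEq] at this
    omega
  · intro k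
    refine ⟨fun x hx => ?_, fun y hy => ?_⟩
    · rw [mem_Ax_encode]; exact Finset.mem_image_of_mem _ hx
    · rw [mem_Ax_encode]
      intro hc
      obtain ⟨x, hx, hxy⟩ := Finset.mem_image.1 hc
      exact hL x hx y hy _ (Nat.le_add_right _ _) hxy

/-- the property of ideals kept in the construction -/
def Good (F : Filter ℕ) : Prop :=
  ∀ p q : Finset (ℕ → Bool), Legal p → Disjoint p q → ¬ InIdeal F (E p q)

/-- the starting filter -/
def F0 : Filter ℕ :=
  Filter.comk (fun X => ∃ T : Finset (Finset (ℕ → Bool)), (∀ r ∈ T, ¬ Legal r) ∧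
      (X \ ⋃ r ∈ T, E r ∅).Finite)
    ⟨∅, by simp, by simp⟩
    (fun t ⟨T, hT, hf⟩ s hs => ⟨T, hT, hf.subset (Set.sdiff_subset_sdiff_left hs)⟩)
    (by
      classical
      rintro s ⟨T, hT, hf⟩ t ⟨T', hT', hf'⟩
      refine ⟨T ∪ T', ?_, ?_⟩
      · intro r hr
        rcases Finset.mem_union.1 hr with h | h
        exacts [hT r h, hT' r h]
      · apply (hf.union hf').subset
        rintro m ⟨hm, hn⟩
        simp only [Finset.mem_union, Set.mem_iUnion, exists_prop, not_exists, not_and] at hn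
        rcases hm with hm | hm
        · left
          refine ⟨hm, ?_⟩
          simp only [Set.mem_iUnion, exists_prop, not_exists, not_and]
          exact fun r hr => hn r (Or.inl hr)
        · right
          refine ⟨hm, ?_⟩
          simp only [Set.mem_iUnion, exists_prop, not_exists, not_and]
          exact fun r hr => hn r (Or.inr hr))

lemma inIdeal_F0 {X : Set ℕ} : InIdeal F0 X ↔ ∃ T : Finset (Finset (ℕ → Bool)),
    (∀ r ∈ T, ¬ Legal r) ∧ (X \ ⋃ r ∈ T, E r ∅).Finite := by
  unfold InIdeal F0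
  rw [Filter.mem_comk, compl_compl]

lemma F0_le : F0 ≤ cofinite := by
  intro X hX
  have : InIdeal F0 Xᶜ := by
    rw [inIdeal_F0]
    refine ⟨∅, by simp, ?_⟩
    simpa using mem_cofinite.1 hX
  simpa [InIdeal] using this

lemma F0_good : Good F0 := by
  classical
  intro p q hp hpq hc
  rw [inIdeal_F0] at hc
  obtain ⟨T, hT, hf⟩ := hc
  have hy : ∀ r : Finset (ℕ → Bool), ∃ y, r ∈ T → y ∈ r ∧ y ∉ p := by
    intro r
    by_cases hr : r ∈ T
    · have : ¬ r ⊆ p := fun h => hT r hr (hp.mono h)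
      obtain ⟨y, hy, hyp⟩ := Finset.not_subset.1 this
      exact ⟨y, fun _ => ⟨hy, hyp⟩⟩
    · exact ⟨fun _ => false, fun h => absurd h hr⟩
  choose y hy using hy
  have hd : Disjoint p (q ∪ T.image y) := by
    rw [Finset.disjoint_union_right]
    refine ⟨hpq, ?_⟩
    rw [Finset.disjoint_left]
    intro x hx hxi
    obtain ⟨r, hr, rfl⟩ := Finset.mem_image.1 hxi
    exact (hy r hr).2 hx
  apply E_infinite hd
  apply hf.subset
  intro m hm
  refine ⟨E_mono subset_rfl Finset.subset_union_left hm, ?_⟩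
  simp only [Set.mem_iUnion, exists_prop, not_exists, not_and]
  intro r hr hc
  exact hm.2 (y r) (Finset.mem_union_right _ (Finset.mem_image_of_mem _ hr))
    (hc.1 _ (hy r hr).1)

lemma illegal_F0 {r : Finset (ℕ → Bool)} (h : ¬ Legal r) : InIdeal F0 (E r ∅) := by
  rw [inIdeal_F0]
  refine ⟨{r}, by simpa using h, ?_⟩
  simp

lemma exists_max : ∃ F : Filter ℕ, F ≤ F0 ∧ Good F ∧ ∀ F' ≤ F, Good F' → F' = F := by
  have := zorn_le_nonempty₀ (α := (Filter ℕ)ᵒᵈ) {F | Good (OrderDual.ofDual F)} (by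
    intro c hc hch y hy
    have : Nonempty c := ⟨⟨y, hy⟩⟩
    refine ⟨OrderDual.toDual (⨅ F : c, OrderDual.ofDual F.1), ?_, ?_⟩
    · intro p q hp hpq hin
      unfold InIdeal at hin
      simp only [OrderDual.ofDual_toDual] at hin
      rw [Filter.mem_iInf_of_directed] at hin
      · obtain ⟨⟨G, hG⟩, hF⟩ := hin
        exact hc hG p q hp hpq hF
      · rintro ⟨a, ha⟩ ⟨b, hb⟩
        rcases hch.total ha hb with h | h
        · exact ⟨⟨b, hb⟩, h, le_rfl⟩
        · exact ⟨⟨a, ha⟩, le_rfl, h⟩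
    · intro z hz
      exact iInf_le (fun F : c => OrderDual.ofDual F.1) ⟨z, hz⟩) (OrderDual.toDual F0) F0_good
  obtain ⟨F, hF, hmax⟩ := this
  refine ⟨OrderDual.ofDual F, hF, hmax.prop, ?_⟩
  intro F' hF' hg
  exact le_antisymm hF' (hmax.le_of_ge (y := OrderDual.toDual F') hg hF')

/-- in a maximal good filter, every set outside the ideal contains a basic set modulo
the ideal -/
lemma dense_of_max {F : Filter ℕ} (_hg : Good F) (hmax : ∀ F' ≤ F, Good F' → F' = F)
    {X : Set ℕ} (hX : ¬ InIdeal F X) :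
    ∃ p q : Finset (ℕ → Bool), Legal p ∧ Disjoint p q ∧ InIdeal F (E p q \ X) := by
  by_contra hc
  push Not at hc
  have hg' : Good (F ⊓ 𝓟 Xᶜ) := by
    intro p q hp hpq hin
    apply hc p q hp hpq
    unfold InIdeal at hin ⊢
    rw [Filter.mem_inf_principal] at hin
    filter_upwards [hin] with m hm
    intro hm2
    exact hm hm2.2 hm2.1
  have h1 := hmax _ inf_le_left hg'
  apply hX
  unfold InIdeal
  rw [← h1]
  exact mem_inf_of_right (mem_principal_self _)

lemma exists_code {p q : Finset (ℕ → Bool)} (h : Disjoint p q) : ∃ L, 4 * p.card ≤ L ∧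
    ∀ x ∈ p, ∀ y ∈ q, tr x L ≠ tr y L := by
  obtain ⟨L, hL⟩ := exists_sep_finset h
  exact ⟨max L (4 * p.card), le_max_right _ _, fun x hx y hy => hL x hx y hy _ (le_max_left _ _)⟩

open Classical in
/-- conditions with the same code are compatible -/
lemma compat {p q p' q' : Finset (ℕ → Bool)} {L : ℕ} (hp : Legal p)
    (hc : p.card = p'.card) (hL : 4 * p.card ≤ L)
    (hs : ∀ x ∈ p, ∀ y ∈ q, tr x L ≠ tr y L)
    (hpp : p.image (fun x => tr x L) = p'.image (fun x => tr x L))
    (hqq : q.image (fun x => tr x L) = q'.image (fun x => tr x L)) :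
    Legal (p ∪ p') ∧ Disjoint (p ∪ p') (q ∪ q') := by
  have hP : ∀ x ∈ p ∪ p', ∃ y ∈ p, tr y L = tr x L := by
    intro x hx
    rcases Finset.mem_union.1 hx with h | h
    · exact ⟨x, h, rfl⟩
    · have : tr x L ∈ p.image (fun x => tr x L) := by
        rw [hpp]; exact Finset.mem_image_of_mem _ h
      obtain ⟨y, hy, hyx⟩ := Finset.mem_image.1 this
      exact ⟨y, hy, hyx⟩
  have hQ : ∀ x ∈ q ∪ q', ∃ y ∈ q, tr y L = tr x L := by
    intro x hx
    rcases Finset.mem_union.1 hx with h | h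
    · exact ⟨x, h, rfl⟩
    · have : tr x L ∈ q.image (fun x => tr x L) := by
        rw [hqq]; exact Finset.mem_image_of_mem _ h
      obtain ⟨y, hy, hyx⟩ := Finset.mem_image.1 this
      exact ⟨y, hy, hyx⟩
  constructor
  · intro n s
    by_cases hn : (p ∪ p').card ≤ n + 1
    · exact le_trans Finset.card_image_le (le_trans (Finset.card_filter_le _ _) hn)
    · push Not at hn
      have h1 : (p ∪ p').card ≤ p.card + p'.card := Finset.card_union_le _ _
      have h2 : 2 * n ≤ L := by omega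
      refine le_trans (Finset.card_le_card ?_) (hp n s)
      intro t ht
      obtain ⟨x, hx, rfl⟩ := Finset.mem_image.1 ht
      rw [Finset.mem_filter] at hx
      obtain ⟨y, hy, hyx⟩ := hP x hx.1
      rw [Finset.mem_image]
      refine ⟨y, ?_, tr_mono h2 hyx⟩
      rw [Finset.mem_filter]
      refine ⟨hy, ?_⟩
      rw [← hx.2]
      exact tr_mono (by omega) hyx
  · rw [Finset.disjoint_left]
    intro x hx hx'
    obtain ⟨y, hy, hyx⟩ := hP x hx
    obtain ⟨z, hz, hzx⟩ := hQ x hx'
    exact hs y hy z hz (hyx.trans hzx.symm)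

lemma poor_of_max {F : Filter ℕ} (hg : Good F) (hmax : ∀ F' ≤ F, Good F' → F' = F) :
    IsPoor F := by
  classical
  intro 𝒜 h1 h2
  have hx : ∀ A : 𝒜, ∃ c : ℕ × ℕ × Finset (List Bool) × Finset (List Bool),
      ∃ p q : Finset (ℕ → Bool), Legal p ∧ Disjoint p q ∧ InIdeal F (E p q \ A.1) ∧
        p.card = c.1 ∧ 4 * p.card ≤ c.2.1 ∧ (∀ x ∈ p, ∀ y ∈ q, tr x c.2.1 ≠ tr y c.2.1) ∧
        p.image (fun x => tr x c.2.1) = c.2.2.1 ∧ q.image (fun x => tr x c.2.1) = c.2.2.2 := by
    intro A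
    obtain ⟨p, q, hp, hpq, hin⟩ := dense_of_max hg hmax (h1 A.1 A.2)
    obtain ⟨L, hL, hs⟩ := exists_code hpq
    exact ⟨(p.card, L, p.image (fun x => tr x L), q.image (fun x => tr x L)), p, q, hp, hpq, hin, rfl, hL, hs, rfl, rfl⟩
  choose c hc using hx
  have hinj : Function.Injective c := by
    intro A B hAB
    by_contra hne
    obtain ⟨p, q, hp, hpq, hin, e1, e2, e3, e4, e5⟩ := hc A
    obtain ⟨p', q', hp', hpq', hin', f1, f2, f3, f4, f5⟩ := hc B
    rw [← hAB] at f1 f2 f3 f4 f5
    obtain ⟨g1, g2⟩ := compat (q' := q') hp (e1.trans f1.symm) e2 e3 (e4.trans f4.symm)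
      (e5.trans f5.symm)
    apply hg _ _ g1 g2
    have h3 := h2 A.1 A.2 B.1 B.2 (fun h => hne (Subtype.ext h))
    apply ((hin.union hin').union h3).mono
    intro m hm
    have ha : m ∈ E p q := E_mono Finset.subset_union_left Finset.subset_union_left hm
    have hb : m ∈ E p' q' := E_mono Finset.subset_union_right Finset.subset_union_right hm
    by_cases hmA : m ∈ A.1
    · by_cases hmB : m ∈ B.1
      · exact Or.inr ⟨hmA, hmB⟩
      · exact Or.inl (Or.inr ⟨hb, hmB⟩)
    · exact Or.inl (Or.inl ⟨ha, hmA⟩)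
  exact Set.countable_coe_iff.1 hinj.countable

end

end Pool.Agent.V11245.Filt
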