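import Pool.Agent.V11245.Filt.Gaifman

/-!
No statistical measure generates the filter constructed in `Gaifman.lean`.
-/

namespace Pool.Agent.V11245.Filt

open Set Filter

noncomputable section

lemma IsStatMeasure.empty {μ : Set ℕ → ℝ} (h : IsStatMeasure μ) : μ ∅ = 0 := by
  have := h.add ∅ ∅ (by simp)
  simp only [Set.union_empty] at this
  linarith

lemma IsStatMeasure.mono {μ : Set ℕ → ℝ} (h : IsStatMeasure μ) {A B : Set ℕ} (hs : A ⊆ B) :
    μ A ≤ μ B := by
  have h1 := h.add A (B \ A) Set.disjoint_sdiff_right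
  rw [Set.union_sdiff_cancel hs] at h1
  have := h.nonneg (B \ A)
  linarith

lemma IsStatMeasure.biUnion {μ : Set ℕ → ℝ} (h : IsStatMeasure μ) {ι : Type*}
    (s : Finset ι) (f : ι → Set ℕ) (hd : ∀ i j, i ≠ j → Disjoint (f i) (f j)) :
    μ (⋃ i ∈ s, f i) = ∑ i ∈ s, μ (f i) := by
  classical
  induction s using Finset.induction_on with
  | empty => simp [h.empty]
  | insert a s ha ih =>
    rw [Finset.set_biUnion_insert, h.add, ih, Finset.sum_insert ha]
    rw [Set.disjoint_iUnion₂_right]
    intro i hi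
    exact hd a i (by rintro rfl; exact ha hi)

/-- the atoms of a finite family -/
def atom {ι : Type} (B : ι → Set ℕ) (S : Finset ι) : Set ℕ := {m | ∀ t, m ∈ B t ↔ t ∈ S}

lemma atom_disj {ι : Type} (B : ι → Set ℕ) {S T : Finset ι} (h : S ≠ T) :
    Disjoint (atom B S) (atom B T) := by
  rw [Set.disjoint_left]
  intro m hm hm'
  apply h
  ext t
  rw [← hm t, ← hm' t]

open Classical in
lemma sum_le {μ : Set ℕ → ℝ} (h : IsStatMeasure μ) {ι : Type} [Fintype ι] (B : ι → Set ℕ)
    (N : ℕ) (hN : ∀ T : Finset ι, N + 1 ≤ T.card → μ {m | ∀ t ∈ T, m ∈ B t} = 0) :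
    ∑ t, μ (B t) ≤ N := by
  have hB : ∀ t, μ (B t) = ∑ S : Finset ι, if t ∈ S then μ (atom B S) else 0 := by
    intro t
    rw [← Finset.sum_filter, ← h.biUnion _ _ (fun i j hij => atom_disj B hij)]
    congr 1
    ext m
    simp only [Finset.mem_filter, Finset.mem_univ, true_and, Set.mem_iUnion, exists_prop]
    constructor
    · intro hm
      refine ⟨Finset.univ.filter (fun t => m ∈ B t), by simpa using hm, ?_⟩
      intro s; simp
    · rintro ⟨S, hS, hm⟩
      exact (hm t).2 hS
  have hU : ∑ S : Finset ι, μ (atom B S) = 1 := by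
    rw [← h.biUnion _ _ (fun i j hij => atom_disj B hij), ← h.univ]
    congr 1
    ext m
    simp only [Finset.mem_univ, Set.iUnion_true, Set.mem_iUnion, Set.mem_univ, iff_true]
    exact ⟨Finset.univ.filter (fun t => m ∈ B t), fun s => by simp⟩
  simp_rw [hB]
  rw [Finset.sum_comm]
  calc ∑ S : Finset ι, ∑ t, (if t ∈ S then μ (atom B S) else 0)
      = ∑ S : Finset ι, (S.card : ℝ) * μ (atom B S) := by
        apply Finset.sum_congr rfl
        intro S _
        rw [← Finset.sum_filter]
        simp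
    _ ≤ ∑ S : Finset ι, (N : ℝ) * μ (atom B S) := by
        apply Finset.sum_le_sum
        intro S _
        by_cases hS : N + 1 ≤ S.card
        · have : μ (atom B S) = 0 := by
            apply le_antisymm _ (h.nonneg _)
            rw [← hN S hS]
            apply h.mono
            intro m hm t ht
            exact (hm t).2 ht
          rw [this]; simp
        · push Not at hS
          apply mul_le_mul_of_nonneg_right _ (h.nonneg _)
          exact_mod_cast Nat.lt_succ_iff.1 hS
    _ = N := by rw [← Finset.mul_sum, hU, mul_one]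

/-- a Baire category argument in the Cantor space -/
lemma baire (D : ℕ → Set (ℕ → Bool)) (hD : ∀ x, ∃ k, x ∈ D k) :
    ∃ (k : ℕ) (x : ℕ → Bool) (n : ℕ), ∀ z : ℕ → Bool, (∀ i < n, z i = x i) → ∀ m, ∃ y ∈ D k,
      ∀ i < m, y i = z i := by
  by_contra hc
  push Not at hc
  -- at each stage extend to leave `D k`
  choose z hz m hm using hc
  let step : ℕ → (ℕ → Bool) × ℕ → (ℕ → Bool) × ℕ := fun k s =>
    (z k s.1 s.2, max (s.2 + 1) (m k s.1 s.2))
  let S : ℕ → (ℕ → Bool) × ℕ := fun k => Nat.rec (fun _ => false, 0) (fun k s => step k s) k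
  have hS : ∀ k, S (k+1) = step k (S k) := fun k => rfl
  have hlt : ∀ k, (S k).2 < (S (k+1)).2 := by
    intro k
    rw [hS]
    exact lt_of_lt_of_le (Nat.lt_succ_self _) (le_max_left _ _)
  have hmono : StrictMono fun k => (S k).2 := strictMono_nat_of_lt_succ hlt
  have hext : ∀ k, ∀ i < (S k).2, (S (k+1)).1 i = (S k).1 i := by
    intro k i hi
    rw [hS]
    exact hz k (S k).1 (S k).2 i hi
  have hext' : ∀ k l, k ≤ l → ∀ i < (S k).2, (S l).1 i = (S k).1 i := by
    intro k l hkl
    induction hkl with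
    | refl => intro i _; rfl
    | @step l hl ih =>
      intro i hi
      rw [Nat.succ_eq_add_one, hext l i (lt_of_lt_of_le hi (hmono.monotone hl)), ih i hi]
  have hge : ∀ k, k ≤ (S k).2 := fun k => hmono.id_le k
  let x : ℕ → Bool := fun i => (S (i+1)).1 i
  have hx : ∀ k, ∀ i < (S k).2, x i = (S k).1 i := by
    intro k i hi
    rcases le_total k (i+1) with h | h
    · exact hext' k (i+1) h i hi
    · exact (hext' (i+1) k h i (lt_of_lt_of_le (Nat.lt_succ_self i) (hge _))).symm
  obtain ⟨k, hk⟩ := hD x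
  obtain ⟨i, hi, hne⟩ := hm k (S k).1 (S k).2 x hk
  apply hne
  have h1 : i < (S (k+1)).2 := by
    rw [hS]
    exact lt_of_lt_of_le hi (le_max_right _ _)
  rw [hx (k+1) i h1, hS]

lemma E_singleton (x : ℕ → Bool) : E {x} ∅ = Ax x := by
  ext m; simp [E]

lemma no_measure {F : Filter ℕ} (hF : F ≤ F0) (hg : Good F) {μ : Set ℕ → ℝ}
    (h : IsStatMeasure μ) : ¬ GeneratedBy F μ := by
  classical
  intro hgen
  have hnull : ∀ A, InIdeal F A ↔ μ A = 0 := by
    intro A
    unfold InIdeal
    rw [hgen]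
    have h1 := h.add A Aᶜ disjoint_compl_right
    rw [Set.union_compl_self, h.univ] at h1
    constructor <;> intro h2 <;> linarith
  have hpos : ∀ x, 0 < μ (Ax x) := by
    intro x
    apply lt_of_le_of_ne (h.nonneg _)
    intro h0
    apply hg {x} ∅ (legal_singleton x) (by simp)
    rw [hnull, E_singleton, ← h0]
  have hill : ∀ r : Finset (ℕ → Bool), ¬ Legal r → μ (E r ∅) = 0 := by
    intro r hr
    rw [← hnull]
    exact hF (illegal_F0 hr)
  obtain ⟨k, x, n0, hk⟩ := baire (fun k => {x | 1 / ((k:ℝ) + 1) < μ (Ax x)}) (by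
    intro x
    obtain ⟨k, hk⟩ := exists_nat_one_div_lt (hpos x)
    exact ⟨k, hk⟩)
  -- choose `n` large
  obtain ⟨n, hn0, hn⟩ : ∃ n, n0 ≤ n ∧ (k + 1) * (n + 1) < 2 ^ n := by
    have h2 : Filter.Tendsto (fun n : ℕ => ((n : ℝ) + 1) / 2 ^ n) atTop (nhds 0) := by
      have h3 : Filter.Tendsto (fun n : ℕ => (n : ℝ) / 2 ^ n) atTop (nhds 0) := by
        have := tendsto_pow_const_mul_const_pow_of_lt_one 1 (r := (1/2 : ℝ)) (by norm_num)
          (by norm_num)
        refine this.congr ?_
        intro n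
        rw [pow_one, one_div, inv_pow]
        rfl
      have h4 : Filter.Tendsto (fun n : ℕ => (1 : ℝ) / 2 ^ n) atTop (nhds 0) := by
        have := tendsto_pow_atTop_nhds_zero_of_lt_one (r := (1/2 : ℝ)) (by norm_num) (by norm_num)
        refine this.congr ?_
        intro n
        rw [one_div, inv_pow, one_div]
      have := h3.add h4
      simp only [add_zero] at this
      refine this.congr ?_
      intro n; rw [add_div]
    have h5 : ∀ᶠ n : ℕ in atTop, ((n : ℝ) + 1) / 2 ^ n < 1 / ((k : ℝ) + 1) :=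
      h2.eventually_lt_const (by positivity)
    obtain ⟨n, hn, hn0⟩ := (h5.and (eventually_ge_atTop n0)).exists
    refine ⟨n, hn0, ?_⟩
    rw [div_lt_div_iff₀ (by positivity) (by positivity)] at hn
    have : (((k + 1) * (n + 1) : ℕ) : ℝ) < ((2 ^ n : ℕ) : ℝ) := by
      push_cast; linarith
    exact_mod_cast this
  -- the points
  let z : (Fin n → Bool) → (ℕ → Bool) := fun t i =>
    if i < n then x i else if hi : i - n < n then t ⟨i - n, hi⟩ else false
  have hz : ∀ t, ∀ i < n0, z t i = x i := by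
    intro t i hi
    simp only [z]
    rw [if_pos (lt_of_lt_of_le hi hn0)]
  choose y hyD hy using fun t => hk (z t) (hz t) (2 * n)
  have hyn : ∀ t, tr (y t) n = tr x n := by
    intro t
    rw [tr_eq_iff]
    intro i hi
    rw [hy t i (by omega)]
    simp only [z]
    rw [if_pos hi]
  have hyinj : ∀ t t', tr (y t) (2 * n) = tr (y t') (2 * n) → t = t' := by
    intro t t' he
    funext i
    rw [tr_eq_iff] at he
    have h1 := he (n + i) (by omega)
    rw [hy t _ (by omega), hy t' _ (by omega)] at h1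
    simp only [z] at h1
    rw [if_neg (by omega), if_neg (by omega)] at h1
    have h2 : n + (i : ℕ) - n < n := by omega
    rw [dif_pos h2, dif_pos h2] at h1
    have h3 : (⟨n + (i : ℕ) - n, h2⟩ : Fin n) = i := Fin.ext (by simp)
    rwa [h3] at h1
  have hsum := sum_le h (fun t => Ax (y t)) (n + 1) (by
    intro T hT
    have : {m | ∀ t ∈ T, m ∈ Ax (y t)} = E (T.image y) ∅ := by
      ext m; simp [E]
    rw [this]
    apply hill
    intro hleg
    have h1 := hleg n (tr x n)
    have h2 : (T.image y).filter (fun x_1 => tr x_1 n = tr x n) = T.image y := by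
      rw [Finset.filter_eq_self]
      intro u hu
      obtain ⟨t, _, rfl⟩ := Finset.mem_image.1 hu
      exact hyn t
    rw [h2, Finset.image_image] at h1
    rw [Finset.card_image_of_injective] at h1
    · omega
    · intro t t' he
      exact hyinj t t' he)
  have hlow : ((2:ℝ) ^ n) * (1 / ((k:ℝ) + 1)) ≤ ∑ t : Fin n → Bool, μ (Ax (y t)) := by
    have : ∑ _t : Fin n → Bool, (1 / ((k:ℝ) + 1)) ≤ ∑ t : Fin n → Bool, μ (Ax (y t)) :=
      Finset.sum_le_sum fun t _ => le_of_lt (hyD t)
    simpa using this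
  have h1 : (2:ℝ) ^ n * (1 / ((k:ℝ) + 1)) ≤ n + 1 := by
    have := hlow.trans hsum
    push_cast at this
    exact this
  rw [mul_one_div, div_le_iff₀ (by positivity)] at h1
  have h2 : (((k + 1) * (n + 1) : ℕ) : ℝ) < ((2 ^ n : ℕ) : ℝ) := by exact_mod_cast hn
  push_cast at h2
  nlinarith

/-- There is a poor free filter on the naturals not generated by a statistical measure. -/
theorem exists_poor_not_generated : ∃ F : Filter ℕ, IsFree F ∧ IsPoor F ∧
    ∀ μ, IsStatMeasure μ → ¬ GeneratedBy F μ := by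
  obtain ⟨F, hF, hg, hmax⟩ := exists_max
  refine ⟨F, ⟨?_, hF.trans F0_le⟩, poor_of_max hg hmax, fun μ h => no_measure hF hg h⟩
  by_contra hbot
  rw [Filter.not_neBot] at hbot
  apply hg ∅ ∅ (by intro n s; simp) (by simp)
  unfold InIdeal
  rw [hbot]; trivial

end

end Pool.Agent.V11245.Filt
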